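import Pool.Agent.Helper52.SX.Goals2

/-! Project SX, packet CLN: cleaning of a CNF. -/

set_option autoImplicit false

namespace Pool.Agent.Helper23.SX

open Pool.Agent.Helper52.SX
open Pool.Agent.Helper78.JT (Clause Holds coin)
open scoped Classical

theorem mem_cl {n : ℕ} {F : List Clause} {D : Clause} (h : D ∈ cl n F) :
    ∃ C ∈ F, (∀ p ∈ C, (p.1, !p.2) ∉ C ∧ (n ≤ p.1 → p.2 = true)) ∧
      D = (C.filter fun p => decide (p.1 < n)).dedup := by
  unfold cl at h
  rw [List.mem_map] at h
  obtain ⟨C, hC, rfl⟩ := h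
  rw [List.mem_filter] at hC
  refine ⟨C, hC.1, ?_, rfl⟩
  intro p hp
  have h2 := hC.2
  simp only [Bool.not_eq_true', List.any_eq_false, Bool.or_eq_true, not_or, List.contains_iff_mem,
    Bool.and_eq_true, decide_eq_true_eq, not_and] at h2
  obtain ⟨h3, h4⟩ := h2 p hp
  refine ⟨h3, fun hn => ?_⟩
  have := h4 hn
  cases hb : p.2
  · rw [hb] at this; simp at this
  · rfl

theorem cl_mem {n : ℕ} {F : List Clause} {C : Clause} (h : C ∈ F)
    (h2 : ∀ p ∈ C, (p.1, !p.2) ∉ C ∧ (n ≤ p.1 → p.2 = true)) :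
    (C.filter fun p => decide (p.1 < n)).dedup ∈ cl n F := by
  unfold cl
  rw [List.mem_map]
  refine ⟨C, ?_, rfl⟩
  rw [List.mem_filter]
  refine ⟨h, ?_⟩
  simp only [Bool.not_eq_true', List.any_eq_false, Bool.or_eq_true, not_or, List.contains_iff_mem,
    Bool.and_eq_true, decide_eq_true_eq, not_and]
  intro p hp
  refine ⟨(h2 p hp).1, fun hn => ?_⟩
  rw [(h2 p hp).2 hn]
  simp

theorem coin_ge {n : ℕ} (r : Fin n → Bool) {v : ℕ} (h : n ≤ v) : coin r v = false := by
  unfold coin
  rw [dif_neg (by omega)]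

theorem cln : ClnStmt := by
  intro n F
  refine ⟨?_, ?_, ?_⟩
  · intro D hD
    obtain ⟨C, hC, h2, rfl⟩ := mem_cl hD
    refine ⟨List.nodup_dedup _, ?_⟩
    intro p hp
    rw [List.mem_dedup, List.mem_filter] at hp
    refine ⟨by simpa using hp.2, fun h => ?_⟩
    rw [List.mem_dedup, List.mem_filter] at h
    exact (h2 p hp.1).1 h.1
  · intro r
    constructor
    · intro H C hC
      by_cases h2 : ∀ p ∈ C, (p.1, !p.2) ∉ C ∧ (n ≤ p.1 → p.2 = true)
      · obtain ⟨p, hp, hv⟩ := H _ (cl_mem hC h2)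
        rw [List.mem_dedup, List.mem_filter] at hp
        exact ⟨p, hp.1, hv⟩
      · push Not at h2
        obtain ⟨p, hp, h3⟩ := h2
        by_cases h4 : (p.1, !p.2) ∈ C
        · by_cases h5 : coin r p.1 = p.2
          · exact ⟨p, hp, h5⟩
          · refine ⟨_, h4, ?_⟩
            show coin r p.1 = !p.2
            cases hb : p.2 <;> cases hc : coin r p.1 <;> simp_all
        · obtain ⟨h5, h6⟩ := h3 h4
          refine ⟨p, hp, ?_⟩
          rw [coin_ge r h5]
          cases hb : p.2
          · rfl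
          · exact absurd hb h6
    · intro H D hD
      obtain ⟨C, hC, h2, rfl⟩ := mem_cl hD
      obtain ⟨p, hp, hv⟩ := H C hC
      refine ⟨p, ?_, hv⟩
      rw [List.mem_dedup, List.mem_filter]
      refine ⟨hp, ?_⟩
      by_contra hn
      have hn' : n ≤ p.1 := by simpa using hn
      have h3 := (h2 p hp).2 hn'
      rw [coin_ge r hn', h3] at hv
      exact Bool.false_ne_true hv
  · intro k
    rw [← List.countP_eq_length_filter, ← List.countP_eq_length_filter]
    unfold cl
    rw [List.countP_map, List.countP_filter]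
    refine List.countP_mono_left fun C _ h => ?_
    simp only [Function.comp_apply, Bool.and_eq_true, decide_eq_true_eq] at h ⊢
    refine h.1.trans_le ?_
    exact (List.dedup_sublist _).length_le.trans (List.length_filter_le _ _)

end Pool.Agent.Helper23.SX
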